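import Pool.Agent.Q54.EM.StmD

/-!
# Project EM: TAF, Theorem A for a law
-/

set_option autoImplicit false

namespace Pool.Agent.Q111.EM

open Pool.Agent.Q54.EM

theorem taf : S_FLW → S_THA → S_TAF := by
  intro hF hA ι _ p x k l hk hlaw hm0 hm1 hkk hv
  obtain ⟨h, y, g, K, lm, o, R3, H, F, T, O, fl, hF0, hy0⟩ := hF ι p x k l hk hlaw hm0 hm1 hkk hv
  have h1 := hA k (1 - lam k p x) (l / hh k p x - 1) l h y g K lm o R3 H F T O fl 0 le_rfl
  have h2 : (1 : ℝ) - lm 0 = 1 - lam k p x := by rw [fl.il, sub_sub_cancel]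
  rw [hF0, hy0, h2] at h1
  exact sub_nonpos.1 h1

end Pool.Agent.Q111.EM
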